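import Pool.Agent.KK.StmtsV

/-!
# Squad KK, block BETA, row ABQ: all vertices of `D` are passed
-/

set_option autoImplicit false
set_option linter.unusedSectionVars false

namespace Pool.Agent.KK.H90

variable {V : Type} [Fintype V] [DecidableEq V]

theorem fx_app (s t : List (Slot V)) : fx (s ++ t) = fx s ++ fx t := by
  unfold fx
  exact List.filterMap_append

theorem cX_app (X : Finset V) (s t : List (Slot V)) : cX X (s ++ t) = cX X s + cX X t := by
  unfold cX
  exact List.countP_append

theorem lst_nil (H : Finset (Finset V)) (X : Finset V) (k p : ℕ) (ε : ℝ) (u : List Bool)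
    (hk : 1 ≤ k) (hu : u.length = k - 1) : Lst H X k p ε u u [] := by
  refine ⟨hu, hu, List.nodup_nil, ?_, ?_, ?_⟩
  · rw [List.append_nil]
  · intro s hs hsk
    rw [List.append_nil] at hs
    have h1 := hs.length_le
    unfold fw at h1
    rw [List.length_map, hu, hsk] at h1
    omega
  · intro s hs hsk
    rw [List.append_nil] at hs
    have h1 := hs.length_le
    unfold fw at h1
    rw [List.length_map, List.length_map, hu, hsk] at h1
    omega

/-- ABQ -/
theorem abq (hCmo : CmoStmt) : AbqStmt := by
  intro V _ _ H X D k p t ε K u hk hu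
  induction D using Finset.induction_on with
  | empty =>
    intro _ _ Z _
    refine ⟨[], ?_, ?_, ?_, ?_, ?_, lst_nil H X k p ε u hk hu⟩
    · simp
    · simp [cX]
    · simp [fx]
    · intro x hx; simp [fx] at hx
    · intro x hx; simp at hx
  | insert v D hv ih =>
    intro hD hfree Z hZ
    rw [Finset.card_insert_of_notMem hv] at hZ ⊢
    have hZ' : (Z.card : ℝ) + 2 * k * D.card ≤ K := by
      push_cast at hZ
      have : (0 : ℝ) ≤ 2 * (k : ℝ) := by positivity
      linarith
    obtain ⟨L, hL1, hL2, hL3, hL4, hL5, hL6⟩ := ih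
      (fun x hx => hD x (Finset.mem_insert_of_mem hx)) hfree Z hZ'
    set Z₂ : Finset V := Z ∪ (fx L).toFinset with hZ₂
    have hZ₂c : (Z₂.card : ℝ) ≤ K := by
      have h1 : Z₂.card ≤ Z.card + 2 * k * D.card :=
        (Finset.card_union_le _ _).trans (add_le_add le_rfl ((List.toFinset_card_le _).trans hL3))
      have h2 : (Z₂.card : ℝ) ≤ ((Z.card + 2 * k * D.card : ℕ) : ℝ) := by exact_mod_cast h1
      refine h2.trans ?_
      push_cast
      exact hZ'
    have key : ∃ L' : List (Slot V), L'.length = 4 * k ∧ cX X L' = 4 * t ∧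
        (fx L').length ≤ 2 * k ∧ (∀ x ∈ fx L', x ∉ Z₂) ∧ (v ∈ Z ∨ v ∈ fx L ∨ v ∈ fx L') ∧
        Lst H X k p ε u u L' := by
      by_cases hvZ : v ∈ Z₂
      · obtain ⟨L', h1, h2, h3, h4, _, h6⟩ := hfree Z₂ (Finset.disjoint_empty_right _) hZ₂c
        refine ⟨L', h1, h2, h3.trans (Nat.zero_le _), h4, ?_, h6⟩
        rw [hZ₂, Finset.mem_union, List.mem_toFinset] at hvZ
        rcases hvZ with h | h
        · exact Or.inl h
        · exact Or.inr (Or.inl h)
      · obtain ⟨L', h1, h2, h3, h4, h5, h6⟩ := hD v (Finset.mem_insert_self _ _) Z₂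
          (Finset.disjoint_singleton_right.2 hvZ) hZ₂c
        exact ⟨L', h1, h2, h3, h4, Or.inr (Or.inr (h5 v (Finset.mem_singleton_self _))), h6⟩
    obtain ⟨L', h1, h2, h3, h4, h5, h6⟩ := key
    have h7 := hCmo.1 V H X k p ε u u u L L' hk hL6 h6 (fun x hx hx' => h4 x hx' (by
      rw [hZ₂, Finset.mem_union, List.mem_toFinset]
      exact Or.inr hx))
    refine ⟨L ++ L', ?_, ?_, ?_, ?_, ?_, h7⟩
    · rw [List.length_append, hL1, h1]; ring
    · rw [cX_app, hL2, h2]; ring
    · rw [fx_app, List.length_append]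
      calc (fx L).length + (fx L').length ≤ 2 * k * D.card + 2 * k := add_le_add hL3 h3
        _ = _ := by ring
    · intro x hx
      rw [fx_app, List.mem_append] at hx
      rcases hx with hx | hx
      · exact hL4 x hx
      · intro hxZ
        exact h4 x hx (by rw [hZ₂, Finset.mem_union]; exact Or.inl hxZ)
    · intro x hx
      rw [fx_app, List.mem_append]
      rw [Finset.mem_insert] at hx
      rcases hx with rfl | hx
      · exact h5
      · rcases hL5 x hx with h | h
        · exact Or.inl h
        · exact Or.inr (Or.inl h)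

end Pool.Agent.KK.H90
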